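import Pool.Agent.H345R2.CT.C

namespace Pool.Agent.Results.MP_7eacff_nt.ClusterTail

/-- multiplicity of `s` as a zero of the Riemann zeta function (order of vanishing at `s`) -/
noncomputable def zmult (s : ℂ) : ℕ := analyticOrderNatAt riemannZeta s

/-- the number of nontrivial zeros of `ζ` with ordinate in `(0, t]`, with multiplicity -/
noncomputable def NZ (t : ℝ) : ℕ :=
  ∑ᶠ s ∈ {s : ℂ | riemannZeta s = 0 ∧ 0 < s.re ∧ s.re < 1 ∧ 0 < s.im ∧ s.im ≤ t}, zmult s

/-- for `n ≥ 1`: the `n`-th positive ordinate `γ n` of a nontrivial zero of `ζ`, the ordinates being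
listed in nondecreasing order and repeated according to multiplicity -/
noncomputable def γ (n : ℕ) : ℝ := sInf {t : ℝ | n ≤ NZ t}

/-- the unfolded consecutive gaps `δ_n = (γ_{n+1} - γ_n) / 2π · log (γ_n / 2π)` -/
noncomputable def δ (n : ℕ) : ℝ := (γ (n + 1) - γ n) / (2 * Real.pi) * Real.log (γ n / (2 * Real.pi))

/-- On the Riemann hypothesis the proportion of the `n ≤ N` for which the sum of the `m` unfolded
gaps `δ_n, …, δ_{n+m-1}` (which is `m` on average) is at most `c m` does not exceed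
`exp (-c m log m)`, uniformly in `N ≥ 1` and `m ≥ m₀`. -/
theorem result (RH : RiemannHypothesis) : ∃ c : ℝ, 0 < c ∧ ∃ m₀ : ℕ, 1 ≤ m₀ ∧
    ∀ N : ℕ, 1 ≤ N → ∀ m : ℕ, m₀ ≤ m →
      ({n : ℕ | 1 ≤ n ∧ n ≤ N ∧ ∑ i ∈ Finset.range m, δ (n + i) ≤ c * m}.ncard : ℝ) ≤
        N * Real.exp (-c * m * Real.log m) := by
  have hRHs : SP.RHs := by
    intro s h1 h2 h0
    apply RH s h0
    · rintro ⟨k, hk⟩
      have := congrArg Complex.re hk
      simp at this
      have hk0 : (0 : ℝ) ≤ k := Nat.cast_nonneg k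
      linarith
    · intro h; rw [h] at h2; simp at h2
  exact LG.CU.cluster_uniform hRHs

end Pool.Agent.Results.MP_7eacff_nt.ClusterTail
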