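import Pool.Agent.H986R2.K4.GNorm

/-!
# The gaps between the zeros of the derivatives of the Riemann xi function

Let `ξ^(n)` be the `n`-th derivative of the Riemann xi function.  Under the Riemann hypothesis Q1 is the
case `n = 0` of the question how the normalised gaps between consecutive zeros of `ξ^(n)` are
distributed.  We show that after `ε log T` differentiations nothing is left of the GUE statistics: under
the Riemann hypothesis, for every `ε > 0`, ALL normalised gaps between consecutive zeros of `ξ^(n)` at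
height `T`, `ε log T ≤ n ≤ log T`, lie between `1 - ε` and `1 + ε` if `T` is large.  Unconditionally the
same is true for `n ≥ (1/4 + ε) log T`, and then all zeros of `ξ^(n)` at this height are simple and on
the critical line; if `ζ` has no zeros with real part `> θ`, it is true for
`n ≥ ((θ - 1/2)/2 + ε) log T`.

Proof.  The saddle point of Cauchy's integral for `ξ^(n)` at height `T` is at the distance
`2 n / log T` from the critical line.  If it lies in a zero-free region of `ζ`, then on the line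
`ξ^(n)(1/2 + i t) = 2 Re G(t)` or `2 i Im G(t)`, where the argument of `G` has the derivative
`(1 + o(1)) (log t)/2`, by the saddle point method.
-/

set_option autoImplicit false

namespace Pool.Agent.Results.MP_7eacff_nt.DerivativeGaps

open Complex

/-- The Riemann xi function `s (s - 1) π^(-s/2) Γ(s/2) ζ(s) / 2`. -/
noncomputable def xi (s : ℂ) : ℂ := s * (s - 1) / 2 * completedRiemannZeta₀ s + 1 / 2

/-- `1/2 + i a` and `1/2 + i b`, `a < b`, are zeros of `ξ^(n)` and there is no zero between them. -/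
def Consecutive (n : ℕ) (a b : ℝ) : Prop := a < b ∧ iteratedDeriv n xi (1 / 2 + I * a) = 0 ∧
  iteratedDeriv n xi (1 / 2 + I * b) = 0 ∧
  ∀ y : ℝ, a < y → y < b → iteratedDeriv n xi (1 / 2 + I * y) ≠ 0

/-- For every `ε > 0` and all large `a`, all `n` with `(ν + ε) log a ≤ n ≤ log a`: the zeros of `ξ^(n)` at
height `a` are simple and on the critical line, there is a zero `1/2 + i b` with
`a < b ≤ a + 4 π / log a`, and if `a`, `b` are consecutive then their normalised distance differs from
`1` by at most `ε`. -/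
def Rigid (ν : ℝ) : Prop := ∀ ε : ℝ, 0 < ε → ∃ T0 : ℝ, 2 ≤ T0 ∧ ∀ (a : ℝ) (n : ℕ), T0 ≤ a →
  (ν + ε) * Real.log a ≤ n → (n : ℝ) ≤ Real.log a →
  (∀ s : ℂ, iteratedDeriv n xi s = 0 → s.im = a → s.re = 1 / 2 ∧ iteratedDeriv (n + 1) xi s ≠ 0) ∧
  (∃ b : ℝ, a < b ∧ b ≤ a + 4 * Real.pi / Real.log a ∧ iteratedDeriv n xi (1 / 2 + I * b) = 0) ∧
  ∀ b : ℝ, Consecutive n a b → |(b - a) / (2 * Real.pi) * Real.log (a / (2 * Real.pi)) - 1| ≤ ε

theorem result :
    Rigid (1 / 4) ∧
    (RiemannHypothesis → Rigid 0) ∧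
    ∀ θ : ℝ, 1 / 2 ≤ θ → θ ≤ 1 → (∀ s : ℂ, θ < s.re → riemannZeta s ≠ 0) →
      Rigid ((θ - 1 / 2) / 2) := by
  have key : ∀ θ : ℝ, 1 / 2 ≤ θ → θ ≤ 1 → (∀ s : ℂ, θ < s.re → riemannZeta s ≠ 0) →
      Rigid ((θ - 1 / 2) / 2) := by
    intro θ h1 h2 hz ε hε
    have hm : 0 < min ε 1 / 4 := by
      have := lt_min hε one_pos
      linarith
    have hm' : min ε 1 / 4 ≤ ε := by
      have := min_le_left ε 1
      linarith
    obtain ⟨T1, hT1, H1⟩ := Pool.Agent.H986R2.K4.gapsT θ (min ε 1 / 4) h1 h2 hz hm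
    obtain ⟨T2, hT2, H2⟩ := Pool.Agent.H986R2.K4.renorm ε hε
    refine ⟨max T1 T2, le_trans hT1 (le_max_left _ _), fun a n ha hn1 hn2 => ?_⟩
    have ha1 : T1 ≤ a := le_trans (le_max_left _ _) ha
    have ha2 : T2 ≤ a := le_trans (le_max_right _ _) ha
    have hla : 0 ≤ Real.log a := Real.log_nonneg (by linarith)
    obtain ⟨r1, r2, r3⟩ := H1 a n ha1 (le_trans (by gcongr) hn1) hn2
    exact ⟨r1, r2, fun b hb => H2 a b ha2 hb.1 (r3 b hb)⟩
  refine ⟨?_, ?_, key⟩
  · have h := key 1 (by norm_num) le_rfl (fun s hs => riemannZeta_ne_zero_of_one_le_re hs.le)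
    have e : ((1 : ℝ) - 1 / 2) / 2 = 1 / 4 := by norm_num
    rwa [e] at h
  · intro hRH
    have h := key (1 / 2) le_rfl (by norm_num) (fun s hs h0 => by
      have h1 : s ≠ 1 := by
        rintro rfl
        exact riemannZeta_ne_zero_of_one_le_re (by simp) h0
      have h2 : ¬ ∃ n : ℕ, s = -2 * (n + 1) := by
        rintro ⟨n, rfl⟩
        have : (-2 * ((n : ℂ) + 1)).re = -2 * ((n : ℝ) + 1) := by simp
        rw [this] at hs
        have hn : (0 : ℝ) ≤ n := Nat.cast_nonneg n
        linarith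
      have := hRH s h0 h2 h1
      linarith)
    have e : ((1 / 2 : ℝ) - 1 / 2) / 2 = 0 := by norm_num
    rwa [e] at h

end Pool.Agent.Results.MP_7eacff_nt.DerivativeGaps
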