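import Pool.Agent.H382P.PosProp

open Filter

namespace Pool.Agent.Results.MP_7eacff_nt.SmallGaps

/-- multiplicity of `s` as a zero of the Riemann zeta function (order of vanishing at `s`) -/
noncomputable def zmult (s : ℂ) : ℕ := analyticOrderNatAt riemannZeta s

/-- the number of nontrivial zeros of `ζ` with ordinate in `(0, t]`, with multiplicity -/
noncomputable def NZ (t : ℝ) : ℕ :=
  ∑ᶠ s ∈ {s : ℂ | riemannZeta s = 0 ∧ 0 < s.re ∧ s.re < 1 ∧ 0 < s.im ∧ s.im ≤ t}, zmult s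

/-- for `n ≥ 1`: the `n`-th positive ordinate `γ n` of a nontrivial zero of `ζ`, the ordinates being
listed in nondecreasing order and repeated according to multiplicity -/
noncomputable def γ (n : ℕ) : ℝ := sInf {t : ℝ | n ≤ NZ t}

/-- the unfolded consecutive gaps `δ_n = (γ_{n+1} - γ_n) / 2π · log (γ_n / 2π)` -/
noncomputable def δ (n : ℕ) : ℝ := (γ (n + 1) - γ n) / (2 * Real.pi) * Real.log (γ n / (2 * Real.pi))

/-- On the Riemann hypothesis, for every `β > 1/2` a positive proportion of the unfolded gaps of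
the zeta zeros is smaller than `β`. -/
theorem result (RH : RiemannHypothesis) (β : ℝ) (hβ : 1 / 2 < β) :
    ∃ ε : ℝ, 0 < ε ∧ ∀ᶠ N : ℕ in atTop,
      ε ≤ (1 / N : ℝ) * ({n : ℕ | 1 ≤ n ∧ n ≤ N ∧ δ n < β}.ncard : ℝ) := by
  have hRHs : SP.RHs := by
    intro s h1 h2 h0
    apply RH s h0
    · rintro ⟨k, hk⟩
      have := congrArg Complex.re hk
      simp at this
      have hk0 : (0 : ℝ) ≤ k := Nat.cast_nonneg k
      linarith
    · intro h; rw [h] at h2; simp at h2
  obtain ⟨ε, hε, h⟩ := SP.pos_prop_delta hRHs β hβ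
  refine ⟨ε, hε, ?_⟩
  filter_upwards [h, eventually_gt_atTop 0] with N hN hN0
  have hNpos : (0 : ℝ) < N := by exact_mod_cast hN0
  change ε ≤ (1 / N : ℝ) * ({n : ℕ | 1 ≤ n ∧ n ≤ N ∧
        (SG.ord (n + 1) - SG.ord n) / (2 * Real.pi) * Real.log (SG.ord n / (2 * Real.pi)) < β}.ncard : ℝ)
  rw [one_div, inv_mul_eq_div, le_div_iff₀ hNpos]
  exact hN

end Pool.Agent.Results.MP_7eacff_nt.SmallGaps
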