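import Pool.Agent.H360R2.RG.Main

open Filter

namespace Pool.Agent.Results.MP_7eacff_nt.SmallRSums

/-- multiplicity of `s` as a zero of the Riemann zeta function (order of vanishing at `s`) -/
noncomputable def zmult (s : ℂ) : ℕ := analyticOrderNatAt riemannZeta s

/-- the number of nontrivial zeros of `ζ` with ordinate in `(0, t]`, with multiplicity -/
noncomputable def NZ (t : ℝ) : ℕ :=
  ∑ᶠ s ∈ {s : ℂ | riemannZeta s = 0 ∧ 0 < s.re ∧ s.re < 1 ∧ 0 < s.im ∧ s.im ≤ t}, zmult s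

/-- for `n ≥ 1`: the `n`-th positive ordinate `γ n` of a nontrivial zero of `ζ`, the ordinates being
listed in nondecreasing order and repeated according to multiplicity -/
noncomputable def γ (n : ℕ) : ℝ := sInf {t : ℝ | n ≤ NZ t}

/-- the unfolded consecutive gaps `δ_n = (γ_{n+1} - γ_n) / 2π · log (γ_n / 2π)` -/
noncomputable def δ (n : ℕ) : ℝ := (γ (n + 1) - γ n) / (2 * Real.pi) * Real.log (γ n / (2 * Real.pi))

/-- On the Riemann hypothesis, for every `ε > 0` and all large `r`, the sum of `r` consecutive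
unfolded gaps is smaller than `r - (2 - ε) √r` for a positive proportion of the `n`. -/
theorem result (RH : RiemannHypothesis) (ε : ℝ) (hε : 0 < ε) :
    ∃ r0 : ℕ, ∀ r : ℕ, r0 ≤ r → ∃ p : ℝ, 0 < p ∧ ∀ᶠ N : ℕ in atTop,
      p ≤ (1 / N : ℝ) * ({n : ℕ | 1 ≤ n ∧ n ≤ N ∧
        ∑ i ∈ Finset.range r, δ (n + i) < r - (2 - ε) * Real.sqrt r}.ncard : ℝ) := by
  have hRHs : SP.RHs := by
    intro s h1 h2 h0
    apply RH s h0
    · rintro ⟨k, hk⟩
      have := congrArg Complex.re hk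
      simp at this
      have hk0 : (0 : ℝ) ≤ k := Nat.cast_nonneg k
      linarith
    · intro h; rw [h] at h2; simp at h2
  obtain ⟨k0, h0⟩ := RGap.ASYM_main hRHs (ε / 2) (by linarith)
  refine ⟨max k0 1, fun r hr => ?_⟩
  have hr1 : 1 ≤ r := (le_max_right _ _).trans hr
  have hsq : 0 < Real.sqrt r := Real.sqrt_pos.2 (by exact_mod_cast hr1)
  obtain ⟨p, hp, h⟩ := (h0 r ((le_max_left _ _).trans hr)).2.1.delta
    (c' := r - (2 - ε) * Real.sqrt r) (by nlinarith)
  refine ⟨p, hp, ?_⟩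
  filter_upwards [h, eventually_gt_atTop 0] with N hN hN0
  have hNpos : (0 : ℝ) < N := by exact_mod_cast hN0
  rw [one_div, inv_mul_eq_div, le_div_iff₀ hNpos]
  refine hN.trans ?_
  have hsub : {n : ℕ | 1 ≤ n ∧ n ≤ N ∧
        (SG.ord (n + r) * Real.log (SG.ord (n + r)) - SG.ord n * Real.log (SG.ord n)) /
          (2 * Real.pi) < r - (2 - ε) * Real.sqrt r} ⊆
      {n : ℕ | 1 ≤ n ∧ n ≤ N ∧
        ∑ i ∈ Finset.range r, δ (n + i) < r - (2 - ε) * Real.sqrt r} := by
    rintro n ⟨h1, h2, h3⟩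
    refine ⟨h1, h2, lt_of_le_of_lt ?_ h3⟩
    have h4 : ∀ i : ℕ, δ (n + i) ≤ SG.ord (n + (i + 1)) * Real.log (SG.ord (n + (i + 1))) /
        (2 * Real.pi) - SG.ord (n + i) * Real.log (SG.ord (n + i)) / (2 * Real.pi) := fun i =>
      RGap.gap_le (n + i) (by omega)
    calc ∑ i ∈ Finset.range r, δ (n + i) ≤ ∑ i ∈ Finset.range r,
        (SG.ord (n + (i + 1)) * Real.log (SG.ord (n + (i + 1))) / (2 * Real.pi) -
          SG.ord (n + i) * Real.log (SG.ord (n + i)) / (2 * Real.pi)) :=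
          Finset.sum_le_sum fun i _ => h4 i
      _ = (SG.ord (n + r) * Real.log (SG.ord (n + r)) - SG.ord n * Real.log (SG.ord n)) /
          (2 * Real.pi) := by
          rw [Finset.sum_range_sub (fun i => SG.ord (n + i) * Real.log (SG.ord (n + i)) /
            (2 * Real.pi)) r, add_zero, sub_div]
  exact_mod_cast Set.ncard_le_ncard hsub
    ((Set.finite_Iic N).subset (fun n hn => hn.2.1))

end Pool.Agent.Results.MP_7eacff_nt.SmallRSums
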